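import Mathlib

/-!
MP_555fce_lc: the tolerant learning hierarchy is dense.
-/

namespace Pool.Agent.Results.MP_555fce_lc.Yes

open Filter

/-- The `e`-th c.e. set. -/
def W (e : ℕ) : Set ℕ := {x | ((Denumerable.ofNat Nat.Partrec.Code e).eval x).Dom}

/-- Tolerance relation. -/
def Tol (E : ℕ → ℕ → Prop) : Prop := Equivalence E ∧ ∀ e e', W e = W e' → E e e'

/-- The family `K` is `E`-learnable by an arbitrary learner. -/
def Learn (E : ℕ → ℕ → Prop) (K : Set (Set ℕ)) : Prop :=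
  ∃ M : List ℕ → ℕ, ∀ e, W e ∈ K → ∀ μ : ℕ → ℕ, Set.range μ = W e →
    ∃ i, E i e ∧ ∀ᶠ s in atTop, M ((List.range s).map μ) = i

/-- Every `E`-learnable family of nonempty c.e. sets is `F`-learnable. -/
def Le (E F : ℕ → ℕ → Prop) : Prop :=
  ∀ K : Set (Set ℕ), (∀ A ∈ K, A.Nonempty ∧ ∃ e, A = W e) → Learn E K → Learn F K

def Tell (E : ℕ → ℕ → Prop) (K : Set (Set ℕ)) : Prop :=
  ∀ e, W e ∈ K → ∃ n, ∀ j, W j ∈ K → (∀ x < n, x ∈ W e → x ∈ W j) → W j ⊆ W e → E j e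

variable {E F : ℕ → ℕ → Prop} {K : Set (Set ℕ)}

theorem mem_ev (μ : ℕ → ℕ) (m : ℕ) : ∀ᶠ n in atTop, μ m ∈ (List.range n).map μ := by
  filter_upwards [eventually_gt_atTop m] with n hn
  exact List.mem_map.2 ⟨m, List.mem_range.2 hn, rfl⟩

theorem learn_of (hE : Equivalence E) (h : Tell E K) : Learn E K := by
  classical
  choose! N hN using h
  let Q : List ℕ → ℕ → Prop := fun σ j =>
    W j ∈ K ∧ (∀ x < N j, x ∈ W j → x ∈ σ) ∧ ∀ x ∈ σ, x ∈ W j
  refine ⟨fun σ => if h : ∃ j, Q σ j then Nat.find h else 0, fun e he μ hμ => ?_⟩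
  have hex : ∃ j, W j ∈ K ∧ (∀ x < N j, x ∈ W j → x ∈ W e) ∧ W e ⊆ W j :=
    ⟨e, he, fun _ _ => id, le_rfl⟩
  have a : ∀ j, ∀ᶠ s in atTop, (Q ((List.range s).map μ) j ↔
      W j ∈ K ∧ (∀ x < N j, x ∈ W j → x ∈ W e) ∧ W e ⊆ W j) := fun j => by
    have b : ∀ s, ∀ x ∈ (List.range s).map μ, x ∈ W e := fun s x hx => by
      obtain ⟨m, -, rfl⟩ := List.mem_map.1 hx
      exact hμ ▸ ⟨m, rfl⟩
    have c : ∀ x, ∀ᶠ s in atTop, (x ∈ W e → x ∈ (List.range s).map μ) := fun x => by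
      by_cases hx : x ∈ W e
      · obtain ⟨m, rfl⟩ : x ∈ Set.range μ := hμ ▸ hx
        exact (mem_ev μ m).mono fun _ h _ => h
      · simp [hx]
    by_cases d : W e ⊆ W j
    · filter_upwards [(eventually_all_finset (Finset.range (N j))).2 fun x _ => c x] with s hs
      exact and_congr_right fun _ => ⟨fun h => ⟨fun x l k => b s x (h.1 x l k), d⟩, fun h =>
        ⟨fun x l k => hs x (Finset.mem_range.2 l) (h.1 x l k), fun x k => d (b s x k)⟩⟩
    · obtain ⟨x, x1, x2⟩ := Set.not_subset.1 d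
      filter_upwards [c x] with s hs
      exact iff_of_false (fun h => x2 (h.2.2 x (hs x1))) fun h => d h.2.2
  have k := Nat.find_spec hex
  refine ⟨Nat.find hex, hE.symm (hN _ k.1 e he k.2.1 k.2.2), ?_⟩
  filter_upwards [(eventually_all_finset (Finset.range (Nat.find hex + 1))).2 fun j _ => a j]
    with s hs
  have q := (hs _ (by simp)).2 k
  rw [dif_pos ⟨_, q⟩, Nat.find_eq_iff]
  exact ⟨q, fun j hj r => Nat.find_min hex hj ((hs j (Finset.mem_range.2 (by omega))).1 r)⟩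

theorem ext_enum {A : Set ℕ} (hA : A.Nonempty) {σ : List ℕ} (h : ∀ x ∈ σ, x ∈ A) :
    ∃ μ : ℕ → ℕ, Set.range μ = A ∧ ∀ s ≥ σ.length, σ <+: (List.range s).map μ := by
  obtain ⟨f, hf⟩ := A.to_countable.exists_eq_range hA
  refine ⟨fun n => if l : n < σ.length then σ[n] else f (n - σ.length), ?_, fun s hs => ?_⟩
  · apply subset_antisymm
    · rintro _ ⟨n, rfl⟩
      dsimp only
      split_ifs
      · exact h _ (List.getElem_mem _)
      · exact hf ▸ ⟨_, rfl⟩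
    · intro x hx
      obtain ⟨n, rfl⟩ : x ∈ Set.range f := hf ▸ hx
      exact ⟨n + σ.length, by simp⟩
  · refine List.prefix_iff_getElem?.2 fun i hi => ?_
    simp [hi, show i < s by omega]

theorem lock {A : Set ℕ} (hA : A.Nonempty) {M : List ℕ → ℕ}
    (h : ∀ μ : ℕ → ℕ, Set.range μ = A → ∃ i, ∀ᶠ s in atTop, M ((List.range s).map μ) = i) :
    ∃ σ : List ℕ, (∀ x ∈ σ, x ∈ A) ∧ ∀ τ, σ <+: τ → (∀ x ∈ τ, x ∈ A) → M τ = M σ := by
  by_contra k
  push Not at k
  choose! nx n1 n2 n3 using k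
  obtain ⟨f, hf⟩ := A.to_countable.exists_eq_range hA
  obtain ⟨p, p0, ps⟩ : ∃ p : ℕ → List ℕ, p 0 = [] ∧ ∀ n, p (n + 1) = nx (p n ++ [f n]) :=
    ⟨fun n => Nat.rec [] (fun n σ => nx (σ ++ [f n])) n, rfl, fun _ => rfl⟩
  have a : ∀ n, ∀ x ∈ p n ++ [f n], x ∈ A := fun n => by
    induction n with
    | zero => simp [p0, hf]
    | succ n ih =>
      intro x hx
      rcases List.mem_append.1 hx with hx | hx
      · exact n2 _ ih x (ps n ▸ hx)
      · exact hf ▸ ⟨_, (List.mem_singleton.1 hx).symm⟩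
  have b : ∀ n, p n ++ [f n] <+: p (n + 1) := fun n => ps n ▸ n1 _ (a n)
  have c : ∀ n, n ≤ (p n).length := fun n => by
    induction n with
    | zero => simp
    | succ n ih => have := (b n).length_le; simp at this; omega
  have d : ∀ n m, n ≤ m → p n <+: p m := fun n m l => by
    induction m, l using Nat.le_induction with
    | base => exact List.prefix_rfl
    | succ m _ ih => exact ih.trans ((List.prefix_append _ _).trans (b m))
  let μ : ℕ → ℕ := fun n => (p (n + 1))[n]'(c _)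
  have e : ∀ σ n, σ <+: p n → (List.range σ.length).map μ = σ := fun σ n l => by
    refine List.ext_getElem (by simp) fun i _ hi => ?_
    simp only [List.getElem_map, List.getElem_range, μ]
    rw [l.getElem hi]
    rcases le_total n (i + 1) with t | t
    · exact ((d _ _ t).getElem _).symm
    · exact (d _ _ t).getElem _
  obtain ⟨i, hi⟩ := h μ (by
    apply subset_antisymm
    · rintro _ ⟨n, rfl⟩
      exact a (n + 1) _ (List.mem_append_left _ (List.getElem_mem _))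
    · intro x hx
      obtain ⟨n, rfl⟩ : x ∈ Set.range f := hf ▸ hx
      have : f n ∈ (List.range (p n ++ [f n]).length).map μ := by rw [e _ _ (b n)]; simp
      obtain ⟨m, -, hm⟩ := List.mem_map.1 this
      exact ⟨m, hm⟩)
  obtain ⟨s, hs⟩ := eventually_atTop.1 hi
  have u := hs (p s ++ [f s]).length (by have := c s; simp; omega)
  have v := hs (p (s + 1)).length (by have := c (s + 1); omega)
  rw [e _ _ (b s)] at u
  rw [e _ _ List.prefix_rfl, ps] at v
  exact n3 _ (a s) (v.trans u.symm)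

theorem tell_of (hE : Equivalence E) (hK : ∀ A ∈ K, A.Nonempty) (h : Learn E K) : Tell E K := by
  obtain ⟨M, hM⟩ := h
  intro e he
  obtain ⟨σ, s1, s2⟩ := lock (hK _ he) fun μ hμ => (hM e he μ hμ).imp fun _ h => h.2
  have k : ∀ j, W j ∈ K → (∀ x ∈ σ, x ∈ W j) → W j ⊆ W e → E (M σ) j := fun j a b c => by
    obtain ⟨μ, m1, m2⟩ := ext_enum (hK _ a) b
    obtain ⟨i, i1, i2⟩ := hM j a μ m1
    obtain ⟨s, t1, t2⟩ := (i2.and (eventually_ge_atTop σ.length)).exists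
    rwa [← s2 _ (m2 s t2) fun x hx => ?_, t1]
    obtain ⟨m, -, rfl⟩ := List.mem_map.1 hx
    exact c (m1 ▸ ⟨m, rfl⟩)
  exact ⟨σ.sum + 1, fun j a b c => hE.trans (hE.symm (k j a (fun x hx => b x
    (Nat.lt_succ_of_le (List.le_sum_of_mem hx)) (s1 x hx)) c)) (k e he s1 le_rfl)⟩

def Loc (E F : ℕ → ℕ → Prop) : Prop := ∀ e, (W e).Nonempty → ∃ n, ∀ j, (W j).Nonempty →
  (∀ x < n, x ∈ W e → x ∈ W j) → W j ⊆ W e → E j e → F j e

theorem le_iff (hE : Tol E) (hF : Tol F) : Le E F ↔ Loc E F := by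
  constructor
  · intro h e he
    let K : Set (Set ℕ) := {A | A.Nonempty ∧ ∃ j, A = W j ∧ E j e}
    have a : ∀ A ∈ K, A.Nonempty ∧ ∃ e, A = W e := fun A h => ⟨h.1, h.2.imp fun _ h => h.1⟩
    obtain ⟨n, hn⟩ := tell_of hF.1 (fun A h => h.1) (h K a ⟨fun _ => e, fun i ⟨_, j, j1, j2⟩ _ _ =>
      ⟨e, hE.1.symm (hE.1.trans (hE.2 _ _ j1) j2), by simp⟩⟩) e ⟨he, e, rfl, hE.1.refl e⟩
    exact ⟨n, fun j b c d k => hn j ⟨b, j, rfl, k⟩ c d⟩
  · intro h K hK l
    refine learn_of hF.1 fun e he => ?_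
    obtain ⟨n, hn⟩ := tell_of hE.1 (fun A h => (hK A h).1) l e he
    obtain ⟨m, hm⟩ := h e (hK _ he).1
    exact ⟨n + m, fun j a b c => hm j (hK _ a).1 (fun x l => b x (by omega)) c
      (hn j a (fun x l => b x (by omega)) c)⟩

theorem g_eqv (S : ℕ → Prop) (hE : Equivalence E) (hF : Equivalence F) :
    Equivalence fun i j => (S i ∧ S j) ∨ (¬ S i ∧ ¬ S j ∧ E i j ∧ F i j) :=
  ⟨fun i => by have := hE.refl i; have := hF.refl i; tauto, fun {i j} => by
    have := @hE.symm i j; have := @hF.symm i j; tauto, fun {i j k} => by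
    have := @hE.trans i j k; have := @hF.trans i j k; tauto⟩

theorem s_iff {i j e : ℕ} {u v : Prop} (hE : Equivalence E) (hF : Equivalence F) (a : E j i)
    (b : F j i) (c : E i e ∨ (u ↔ v)) : F j e ∧ (E j e ∨ u) ↔ F i e ∧ (E i e ∨ v) := by
  have : F j e ↔ F i e := ⟨hF.trans (hF.symm b), hF.trans b⟩
  have : E j e ↔ E i e := ⟨hE.trans (hE.symm a), hE.trans a⟩
  tauto

theorem result (E F : ℕ → ℕ → Prop) (hE : Tol E) (hF : Tol F) (h1 : Le E F) (h2 : ¬ Le F E) :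
    ∃ G, Tol G ∧ Le E G ∧ ¬ Le G E ∧ Le G F ∧ ¬ Le F G := by
  classical
  rw [le_iff hE hF] at h1
  rw [le_iff hF hE, Loc] at h2
  push Not at h2
  obtain ⟨e, he, h2⟩ := h2
  choose l l1 l2 l3 l4 l5 using h2
  have hx : ∀ n, ∃ x, x ∈ W e ∧ x ∉ W (l n) := fun n => by
    by_contra k
    push Not at k
    exact l5 n (hE.2 _ _ (subset_antisymm (l3 n) k))
  let r : ℕ → ℕ := fun j => sInf {x | x ∈ W e ∧ x ∉ W j}
  have r1 : ∀ n, n ≤ r (l n) := fun n => by
    by_contra k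
    have := Nat.sInf_mem (hx n)
    exact this.2 (l2 n _ (not_le.1 k) this.1)
  obtain ⟨t, ts⟩ : ∃ t : ℕ → ℕ, ∀ k, t (k + 1) = r (l (t k)) + 1 :=
    ⟨fun k => Nat.rec 0 (fun _ a => r (l a) + 1) k, fun _ => rfl⟩
  have tm : StrictMono t := strictMono_nat_of_lt_succ fun k => by have := r1 (t k); rw [ts]; omega
  have rm : StrictMono fun k => r (l (t k)) := strictMono_nat_of_lt_succ fun k => by
    have := r1 (t (k + 1))
    rw [ts] at this ⊢
    omega
  let U : ℕ → Prop := fun j => W j ⊆ W e ∧ ∃ k, r j = r (l (t (2 * k)))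
  let S : ℕ → Prop := fun j => F j e ∧ (E j e ∨ U j)
  have hG : Tol fun i j => (S i ∧ S j) ∨ (¬ S i ∧ ¬ S j ∧ E i j ∧ F i j) := by
    refine ⟨g_eqv S hE.1 hF.1, fun i j k => ?_⟩
    have a := hE.2 i j k
    have b := hF.2 i j k
    have : S i ↔ S j := s_iff hE.1 hF.1 a b (Or.inr (by simp only [U, r, k]))
    by_cases c : S j
    exacts [Or.inl ⟨this.2 c, c⟩, Or.inr ⟨mt this.1 c, c, a, b⟩]
  have se : S e := ⟨hF.1.refl e, Or.inl (hE.1.refl e)⟩
  refine ⟨_, hG, (le_iff hE hG).2 fun i hi => ?_, fun h => ?_,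
    (le_iff hG hF).2 fun i _ => ⟨0, fun j _ _ _ h => h.elim
      (fun h => hF.1.trans h.1.1 (hF.1.symm h.2.1)) fun h => h.2.2.2⟩, fun h => ?_⟩
  · obtain ⟨n, hn⟩ := h1 i hi
    obtain ⟨m, hm⟩ : ∃ m, ∀ j, (∀ x < m, x ∈ W i → x ∈ W j) → W j ⊆ W i → E j i →
        E i e ∨ (U j ↔ U i) := by
      by_cases a : W i ⊆ W e
      · by_cases b : {x | x ∈ W e ∧ x ∉ W i}.Nonempty
        · refine ⟨r i, fun j c d _ => Or.inr (and_congr (iff_of_true (d.trans a) a) ?_)⟩
          have m := Nat.sInf_mem b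
          have : r j = r i := le_antisymm (Nat.sInf_le ⟨m.1, fun k => m.2 (d k)⟩)
            (le_csInf ⟨_, m.1, fun k => m.2 (d k)⟩ fun x k => by_contra fun u =>
              Nat.notMem_of_lt_sInf (not_le.1 u) ⟨k.1, fun v => k.2 (c x (not_le.1 u) v)⟩)
          rw [this]
        · exact ⟨0, fun _ _ _ _ => Or.inl (hE.2 _ _ (subset_antisymm a fun x k =>
            by_contra fun u => b ⟨x, k, u⟩))⟩
      · obtain ⟨x, x1, x2⟩ := Set.not_subset.1 a
        exact ⟨x + 1, fun j c _ _ => Or.inr (iff_of_false (fun u => x2 (u.1 (c x (by omega) x1)))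
          fun u => a u.1)⟩
    refine ⟨n + m, fun j a b c d => ?_⟩
    have u := hn j a (fun x l => b x (by omega)) c d
    have : S j ↔ S i := s_iff hE.1 hF.1 d u (hm j (fun x l => b x (by omega)) c d)
    by_cases c : S i
    exacts [Or.inl ⟨this.2 c, c⟩, Or.inr ⟨mt this.1 c, c, d, u⟩]
  · obtain ⟨n, hn⟩ := (le_iff hG hE).1 h e he
    have := tm.id_le (2 * n)
    exact l5 _ (hn (l (t (2 * n))) (l1 _) (fun x a => l2 _ x (by simp at this; omega)) (l3 _)
      (Or.inl ⟨⟨l4 _, Or.inr ⟨l3 _, n, rfl⟩⟩, se⟩))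
  · obtain ⟨n, hn⟩ := (le_iff hF hG).1 h e he
    have := tm.id_le (2 * n + 1)
    rcases hn (l (t (2 * n + 1))) (l1 _) (fun x a => l2 _ x (by simp at this; omega)) (l3 _) (l4 _)
      with ⟨⟨-, a | ⟨-, k, a⟩⟩, -⟩ | a
    · exact l5 _ a
    · have := rm.injective a
      omega
    · exact a.2.1 se

end Pool.Agent.Results.MP_555fce_lc.Yes
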